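import Pool.Agent.SGB.Stmts

/-!
# Squad SGB: row HNI
-/

set_option autoImplicit false

open Finset

namespace Pool.Agent.SGB.H32

open Pool.Agent.SGB

universe u

/-- the logarithm of the order -/
noncomputable def lg {H : Type u} [AddCommGroup H] (F : AddSubgroup H) : ℝ := Real.log (cd F)

/-- `φ(F) = ∑_a log |S_a ∩ F|` -/
noncomputable def ph {H : Type u} [AddCommGroup H] {m : ℕ} (S : Fin m → AddSubgroup H)
    (F : AddSubgroup H) : ℝ := ∑ a, lg (S a ⊓ F)

section

variable (crd : CRDStmt.{u}) {H : Type u} [AddCommGroup H] [Finite H] {m : ℕ}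
  {S T : Fin m → AddSubgroup H}

include crd

theorem cd_pos (F : AddSubgroup H) : 0 < cd F :=
  lt_of_lt_of_le one_pos ((crd H).2.2.2.1 F).1

theorem lg_nonneg (F : AddSubgroup H) : 0 ≤ lg F := Real.log_nonneg ((crd H).2.2.2.1 F).1

theorem lg_mono {F G : AddSubgroup H} (h : F ≤ G) : lg F ≤ lg G :=
  Real.log_le_log (cd_pos crd F) ((crd H).2.2.1 F G h)

theorem lg_bot : lg (⊥ : AddSubgroup H) = 0 := by
  unfold lg
  rw [(crd H).2.2.2.2, Real.log_one]

theorem lg_mod (F G : AddSubgroup H) : lg F + lg G = lg (F ⊓ G) + lg (F ⊔ G) := by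
  unfold lg
  rw [← Real.log_mul (cd_pos crd _).ne' (cd_pos crd _).ne',
    ← Real.log_mul (cd_pos crd _).ne' (cd_pos crd _).ne', (crd H).1]

theorem lg_lt {F G : AddSubgroup H} (h : F < G) : lg F < lg G := by
  apply Real.log_lt_log (cd_pos crd F)
  unfold cd
  have h1 : Nat.card F < Nat.card G := by
    by_contra h2
    push Not at h2
    exact h.ne (AddSubgroup.eq_of_le_of_card_ge h.le h2)
  exact_mod_cast h1

theorem ph_mono {F G : AddSubgroup H} (h : F ≤ G) : ph S F ≤ ph S G :=
  sum_le_sum fun _ _ => lg_mono crd (inf_le_inf_left _ h)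

theorem ph_bot : ph S (⊥ : AddSubgroup H) = 0 := by
  unfold ph
  apply sum_eq_zero
  intro a _
  rw [inf_bot_eq, lg_bot crd]

theorem ph_super (F G : AddSubgroup H) : ph S F + ph S G ≤ ph S (F ⊓ G) + ph S (F ⊔ G) := by
  unfold ph
  rw [← sum_add_distrib, ← sum_add_distrib]
  refine sum_le_sum fun a _ => ?_
  rw [lg_mod crd (S a ⊓ F) (S a ⊓ G)]
  have h1 : (S a ⊓ F) ⊓ (S a ⊓ G) ≤ S a ⊓ (F ⊓ G) :=
    le_inf (inf_le_left.trans inf_le_left)
      (le_inf (inf_le_left.trans inf_le_right) (inf_le_right.trans inf_le_right))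
  have h2 : (S a ⊓ F) ⊔ (S a ⊓ G) ≤ S a ⊓ (F ⊔ G) :=
    sup_le (inf_le_inf_left _ le_sup_left) (inf_le_inf_left _ le_sup_right)
  exact add_le_add (lg_mono crd h1) (lg_mono crd h2)

theorem ph_add (hST : ∀ a, S a ⊓ T a = ⊥) (F : AddSubgroup H) :
    ph S F + ph T F ≤ m * lg F := by
  unfold ph
  rw [← sum_add_distrib]
  have h1 : ∀ a ∈ (univ : Finset (Fin m)), lg (S a ⊓ F) + lg (T a ⊓ F) ≤ lg F := by
    intro a _
    unfold lg
    rw [← Real.log_mul (cd_pos crd _).ne' (cd_pos crd _).ne']
    apply Real.log_le_log (mul_pos (cd_pos crd _) (cd_pos crd _))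
    rw [inf_comm (S a), inf_comm (T a)]
    exact (crd H).2.1 F (S a) (T a) (hST a)
  refine (sum_le_sum h1).trans (le_of_eq ?_)
  rw [sum_const, card_univ, Fintype.card_fin, nsmul_eq_mul]

theorem star (hST : ∀ a, S a ⊓ T a = ⊥) : ∀ (N : ℕ) (G : AddSubgroup H), Nat.card G = N →
    ∀ s : ℝ, (∀ F ≤ G, ph S F - s * lg F ≤ ph S G - s * lg G) →
    ∑ b, ph S (T b ⊓ G) ≤ s * ph T G + (m - s) * (ph S G - s * lg G) -
      (ph S G - s * lg G) ^ 2 / lg G := by
  intro N
  induction N using Nat.strong_induction_on with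
  | _ N ih =>
    intro G hN s hs
    by_cases hG : G = ⊥
    · subst hG
      have h1 : ∑ b, ph S (T b ⊓ (⊥ : AddSubgroup H)) = 0 := by
        apply sum_eq_zero
        intro b _
        rw [inf_bot_eq, ph_bot crd]
      rw [h1, ph_bot crd, ph_bot crd, lg_bot crd]
      simp
    · have hlt : ∀ F : AddSubgroup H, F < G → 0 < lg G - lg F := by
        intro F hF
        have := lg_lt crd hF
        linarith
      obtain ⟨F', hF', hmin⟩ := Set.exists_min_image {F : AddSubgroup H | F < G}
        (fun F => (ph S G - ph S F) / (lg G - lg F)) (Set.toFinite _)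
        ⟨⊥, bot_lt_iff_ne_bot.2 hG⟩
      have hF'' : F' < G := hF'
      set s' := (ph S G - ph S F') / (lg G - lg F') with hs'
      have hd := hlt F' hF''
      have hss : s ≤ s' := by
        rw [hs', le_div_iff₀ hd]
        have := hs F' hF''.le
        linarith
      have heq : ph S F' - s' * lg F' = ph S G - s' * lg G := by
        have h1 : s' * (lg G - lg F') = ph S G - ph S F' := by
          rw [hs', div_mul_cancel₀ _ hd.ne']
        linarith
      have hP' : ∀ F ≤ G, ph S F - s' * lg F ≤ ph S G - s' * lg G := by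
        intro F hF
        rcases hF.eq_or_lt with h | h
        · rw [h]
        · have h1 := hmin F h
          have h2 := hlt F h
          have h3 : s' ≤ (ph S G - ph S F) / (lg G - lg F) := h1
          rw [le_div_iff₀ h2] at h3
          linarith
      have hcard : Nat.card F' < N := by
        rw [← hN]
        by_contra h2
        push Not at h2
        exact hF''.ne (AddSubgroup.eq_of_le_of_card_ge hF''.le h2)
      have hind := ih _ hcard F' rfl s' (fun F hF => by
        rw [heq]
        exact hP' F (hF.trans hF''.le))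
      rw [heq] at hind
      have hY : ∀ Y ≤ G, ph S Y ≤ ph S (Y ⊓ F') + s' * (lg Y - lg (Y ⊓ F')) := by
        intro Y hY
        have h1 := ph_super crd (S := S) Y F'
        have h2 := hP' (Y ⊔ F') (sup_le hY hF''.le)
        have h3 := lg_mod crd Y F'
        have h4 : lg (Y ⊔ F') = lg Y + lg F' - lg (Y ⊓ F') := by linarith
        rw [h4] at h2
        linarith
      have hsum : ∑ b, ph S (T b ⊓ G) ≤ ∑ b, ph S (T b ⊓ F') + s' * (ph T G - ph T F') := by
        have h1 : ∀ b ∈ (univ : Finset (Fin m)), ph S (T b ⊓ G) ≤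
            ph S (T b ⊓ F') + s' * (lg (T b ⊓ G) - lg (T b ⊓ F')) := by
          intro b _
          have h2 := hY (T b ⊓ G) inf_le_right
          have h3 : T b ⊓ G ⊓ F' = T b ⊓ F' := by
            rw [inf_assoc, inf_eq_right.2 hF''.le]
          rw [h3] at h2
          exact h2
        refine (sum_le_sum h1).trans (le_of_eq ?_)
        rw [sum_add_distrib, ← mul_sum, sum_sub_distrib]
        rfl
      have hadd := ph_add crd hST G
      have hlG : 0 < lg G := by
        have h1 := hlt ⊥ (bot_lt_iff_ne_bot.2 hG)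
        rw [lg_bot crd] at h1
        linarith
      set P' := ph S G - s' * lg G with hP'def
      have hPP : ph S G - s * lg G = P' + (s' - s) * lg G := by rw [hP'def]; ring
      have hq : P' ^ 2 / lg G ≤ P' ^ 2 / lg F' := by
        by_cases hb : F' = ⊥
        · have h1 : P' = 0 := by
            rw [← heq, hb, ph_bot crd, lg_bot crd]
            ring
          rw [h1]
          simp
        · have h1 : 0 < lg F' := by
            have h2 := lg_lt crd (bot_lt_iff_ne_bot.2 hb)
            rwa [lg_bot crd] at h2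
          exact div_le_div_of_nonneg_left (sq_nonneg _) h1 (by linarith)
      have hfin : s' * ph T G + (m - s') * P' - P' ^ 2 / lg G ≤
          s * ph T G + (m - s) * (P' + (s' - s) * lg G) - (P' + (s' - s) * lg G) ^ 2 / lg G := by
        have h1 : (P' + (s' - s) * lg G) ^ 2 / lg G =
            P' ^ 2 / lg G + 2 * (s' - s) * P' + (s' - s) ^ 2 * lg G := by
          field_simp
          ring
        rw [h1]
        have h2 : 0 ≤ (s' - s) * (m * lg G - ph T G - ph S G) :=
          mul_nonneg (by linarith) (by linarith)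
        have h3 : ph S G = P' + s' * lg G := by rw [hP'def]; ring
        rw [h3] at h2
        nlinarith
      rw [hPP]
      linarith

end

theorem hni (crd : CRDStmt.{u}) : HNIStmt.{u} := by
  intro H _ _ m S T hST
  have h1 := star crd hST _ (⊤ : AddSubgroup H) rfl 0 (fun F hF => by
    rw [zero_mul, zero_mul, sub_zero, sub_zero]
    exact ph_mono crd hF)
  have h2 : lg (⊤ : AddSubgroup H) = Real.log (nn H) := by
    unfold lg cd nn
    rw [AddSubgroup.card_top]
  have h3 : ∑ a, ∑ b, Real.log (cd (S a ⊓ T b)) = ∑ b, ph S (T b ⊓ ⊤) := by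
    rw [sum_comm]
    refine sum_congr rfl fun b _ => ?_
    rw [inf_top_eq]
    rfl
  rw [h3, ← h2]
  refine h1.trans ?_
  rw [zero_mul, zero_mul, sub_zero, sub_zero, zero_add]
  rcases (lg_nonneg crd (⊤ : AddSubgroup H)).eq_or_lt with h4 | h4
  · have h5 : ph S (⊤ : AddSubgroup H) = 0 := by
      unfold ph
      apply sum_eq_zero
      intro a _
      apply le_antisymm
      · rw [h4]
        exact lg_mono crd le_top
      · exact lg_nonneg crd _
    rw [h5, ← h4]
    simp
  · rw [sub_le_iff_le_add, ← sub_le_iff_le_add', le_div_iff₀ h4]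
    nlinarith [sq_nonneg (ph S (⊤ : AddSubgroup H) - m / 2 * lg (⊤ : AddSubgroup H))]

end Pool.Agent.SGB.H32
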