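import Pool.Agent.SGB.Stmts

/-!
# Squad SGB: row QUO
-/

set_option autoImplicit false

open Finset

namespace Pool.Agent.SGB.H32

open Pool.Agent.SGB

universe u

theorem quo (hni : HNIStmt.{u}) : QUOStmt.{u} := by
  intro H _ _ m S T X hm hST hX
  have h1 := hni (H ⧸ X) m (fun a => (S a).map (QuotientAddGroup.mk' X))
    (fun a => (T a).map (QuotientAddGroup.mk' X)) (fun a => by
      rw [eq_bot_iff]
      rintro x ⟨hx1, hx2⟩
      obtain ⟨s, hs, hs'⟩ := hx1
      obtain ⟨t, ht, ht'⟩ := hx2
      have h2 : -t + s ∈ X := by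
        rw [← QuotientAddGroup.eq]
        exact ht'.trans hs'.symm
      have h3 : t ∈ S a := by
        have h4 : t = s - (-t + s) := by abel
        rw [h4]
        exact (S a).sub_mem hs (hX a h2)
      have h5 : t ∈ S a ⊓ T a := ⟨h3, ht⟩
      rw [hST a] at h5
      have h6 : t = 0 := h5
      rw [AddSubgroup.mem_bot, ← ht', h6, map_zero])
  have h2 : ∀ a b, Real.log (cd (S a ⊓ T b)) ≤ Real.log (cd
      ((S a).map (QuotientAddGroup.mk' X) ⊓ (T b).map (QuotientAddGroup.mk' X))) := by
    intro a b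
    have hpos : 0 < cd (S a ⊓ T b) := by
      unfold cd
      exact_mod_cast Nat.card_pos
    apply Real.log_le_log hpos
    unfold cd
    have h3 : Nat.card (S a ⊓ T b : AddSubgroup H) ≤ Nat.card
        ((S a).map (QuotientAddGroup.mk' X) ⊓ (T b).map (QuotientAddGroup.mk' X) :
          AddSubgroup (H ⧸ X)) := by
      refine Nat.card_le_card_of_injective (fun x => ⟨QuotientAddGroup.mk' X x.1,
        ⟨⟨x.1, x.2.1, rfl⟩, ⟨x.1, x.2.2, rfl⟩⟩⟩) ?_
      intro x y hxy
      have h4 : QuotientAddGroup.mk' X x.1 = QuotientAddGroup.mk' X y.1 :=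
        congrArg Subtype.val hxy
      have h5 : -x.1 + y.1 ∈ X := QuotientAddGroup.eq.1 h4
      have h6 : -x.1 + y.1 ∈ S b ⊓ T b :=
        ⟨hX b h5, (T b).add_mem ((T b).neg_mem x.2.2) y.2.2⟩
      rw [hST b] at h6
      have h7 : -x.1 + y.1 = 0 := h6
      apply Subtype.ext
      have h8 : y.1 = x.1 := by
        have := congrArg (fun z => x.1 + z) h7
        simpa using this
      exact h8.symm
    exact_mod_cast h3
  have h3 : Real.log (nn (H ⧸ X)) = Real.log (nn H) - Real.log (cd X) := by
    have h4 : nn H = nn (H ⧸ X) * cd X := by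
      unfold nn cd
      have := AddSubgroup.card_eq_card_quotient_mul_card_addSubgroup X
      exact_mod_cast this
    have h5 : 0 < nn (H ⧸ X) := by
      unfold nn
      exact_mod_cast Nat.card_pos
    have h6 : 0 < cd X := by
      unfold cd
      exact_mod_cast Nat.card_pos
    rw [h4, Real.log_mul h5.ne' h6.ne']
    ring
  rw [h3] at h1
  exact (sum_le_sum fun a _ => sum_le_sum fun b _ => h2 a b).trans h1

end Pool.Agent.SGB.H32
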